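import Pool.Agent.H61.KW.TC

/-!
# Kuiper board KW, row NR2
-/

open Set
open Pool.Agent.H61.KU Pool.Agent.H61.KV Pool.Agent.H61.KW

namespace Pool.Agent.H23.KW.NR2

theorem pf_NR2 (h : T_R2B) (h2 : T_R2A) (h3 : T_CA1) (h4 : T_TFT) (h5 : T_XSP) (h6 : T_SCE)
    (h7 : T_DSB) : T_NR2 := by
  intro V _ _ _ m K hS q g hq hT
  have hC := K.cc
  have hqC : q ∈ Cn m := K.mem q hq
  have hgC : g ∈ Cn m := hT.mem
  have h9 : rk (Cn m) (q + g) = 9 := by
    rw [ov_rk hC K.span hqC hgC hT.ov, K.fin]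
  by_contra hlt
  have hcases : rk (Cn m) g = 0 ∨ rk (Cn m) g = 1 ∨ rk (Cn m) g = 2 := by omega
  rcases hcases with h0 | h1 | hg2
  · have hg0 : g = 0 := eq_zero_of_rk hC hgC h0
    rw [hg0, add_zero, K.rk4 q hq] at h9
    omega
  · exact hS q g hq (ex_of_rk1 hC hgC h1) hT.ov
  · obtain ⟨a, z, hP, hScx⟩ := h V m K hS q g hq hT hg2
    have haC : a ∈ Cn m := hP.ds.1
    have hzC : z ∈ Cn m := hP.ds.2.1
    have haq : a ∈ Fc (Cn m) q := tra hC hqC hP.mem (left_fc hC haC hzC)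
    have hzq : z ∈ Fc (Cn m) q := tra hC hqC hP.mem (right_fc hC haC hzC)
    obtain ⟨t, ht, hta, -⟩ := h5 V (Cn m) a ⊥ hC haC (by rw [finrank_bot, hP.rk3]; omega)
    have htC : t ∈ Cn m := ht.1
    obtain ⟨a1, ha1, ha1a, ha1t⟩ := h5 V (Cn m) a (Submodule.span ℝ {t}) hC haC (by
      rw [finrank_span_singleton ht.2.1, hP.rk3]; omega)
    have ha1C : a1 ∈ Cn m := ha1.1
    have htq : t ∈ Fc (Cn m) q := tra hC hqC haq hta
    obtain ⟨hq', hgt4⟩ := h2 V m K q g t hq hT hg2 ht htq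
    have hq'C : g + t ∈ Cn m := K.mem _ hq'
    have hov : Ov (Cn m) q (g + t) := (h4 V m K q g t hq hT htq ht.2.1).2.2.2.2.1
    have hds := h7 V (Cn m) a z hC hP.ds
    have hds1 : Dsum (Cn m) a1 z := hds.2.2.1 a1 ha1a z (self hC hzC)
    have hwrk : rk (Cn m) (a1 + z) = 2 := by
      rw [(h7 V (Cn m) a1 z hC hds1).1, ex_rk hC ha1, ex_rk hC hP.ex]
    have hwq : a1 + z ∈ Fc (Cn m) q := add_fc hC hqC (tra hC hqC haq ha1a) hzq
    have hwC : a1 + z ∈ Cn m := mem_C hwq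
    have hqw : q ∉ Fc (Cn m) (a1 + z) := by
      intro hh
      have := rk_mono hC hwC hh
      rw [K.rk4 q hq] at this
      omega
    have hwM : a1 + z ∈ Mh m := K.bd q _ hq hwq hqw (self hC hwC)
    -- `Ov C q' w`
    have hsumC : (g + t) + (a1 + z) ∈ Cn m := hC.add _ hq'C _ hwC
    have hl : g + t ∈ Fc (Cn m) ((g + t) + (a1 + z)) := left_fc hC hq'C hwC
    have hr : a1 + z ∈ Fc (Cn m) ((g + t) + (a1 + z)) := right_fc hC hq'C hwC
    obtain ⟨hgs, hts⟩ := face hC hsumC hgC htC hl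
    obtain ⟨ha1s, hzs⟩ := face hC hsumC ha1C hzC hr
    have ha1nt : a1 ∉ Fc (Cn m) t := by
      intro hh
      obtain ⟨c, hc⟩ := ht.2.2 a1 hh
      apply ha1t
      rw [hc]
      exact Submodule.smul_mem _ _ (Submodule.mem_span_singleton_self t)
    have hasum : a ∈ Fc (Cn m) (t + a1) := h6 V (Cn m) a t a1 hC haC hScx ht ha1 hta ha1a ha1nt
    have has : a ∈ Fc (Cn m) ((g + t) + (a1 + z)) :=
      tra hC hsumC (add_fc hC hsumC hts ha1s) hasum
    have hqs : q ∈ Fc (Cn m) ((g + t) + (a1 + z)) :=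
      tra hC hsumC (add_fc hC hsumC has hzs) hP.mem'
    have hov' : Ov (Cn m) (g + t) (a1 + z) := ov_of hT.ov hqs hgs
    have hT' : Tf m (g + t) (a1 + z) := K.ovf _ _ hq' hwM hov'
    obtain ⟨a', z', hP', hScx'⟩ := h V m K hS (g + t) (a1 + z) hq' hT' hwrk
    have ha'C : a' ∈ Cn m := hP'.ds.1
    have hz'C : z' ∈ Cn m := hP'.ds.2.1
    have haz'C : a' + z' ∈ Cn m := hC.add _ ha'C _ hz'C
    have hds' := h7 V (Cn m) a' z' hC hP'.ds
    have htq' : t ∈ Fc (Cn m) (g + t) := right_fc hC hgC htC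
    have hgq' : g ∈ Fc (Cn m) (g + t) := left_fc hC hgC htC
    have hta' : t ∈ Fc (Cn m) a' := by
      rcases hds'.2.2.2.2.2 t ht (tra hC haz'C hP'.mem' htq') with h10 | h10
      · exact h10
      · exfalso
        obtain ⟨u, hu, v, hv, huv⟩ := hP'.ds.2.2.2 g (tra hC haz'C hP'.mem' hgq')
        have hz't : z' ∈ Fc (Cn m) t := ex_symm hC hP'.ex ht h10
        have hvt : v ∈ Fc (Cn m) t := tra hC htC hz't hv
        have hvq : v ∈ Fc (Cn m) q := tra hC hqC htq hvt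
        have hvg : v ∈ Fc (Cn m) g := by
          rw [huv]
          exact right_fc hC (mem_C hu) (mem_C hv)
        have hv0 : v = 0 := foot_disj hC (K.ftd q hq) hgC hT.foot hvg hvq
        have hga' : g ∈ Fc (Cn m) a' := by
          rw [huv, hv0, add_zero]
          exact hu
        have hdgt : Dsum (Cn m) g t := hds'.2.2.1 g hga' t h10
        have := (h7 V (Cn m) g t hC hdgt).1
        rw [hgt4, hg2, ex_rk hC ht] at this
        omega
    exact h3 V m K hS q (g + t) a z a' z' t hq hq' hov hP hP' hScx hScx' ht hta hta'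

end Pool.Agent.H23.KW.NR2
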