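import Pool.Agent.H61.KW.TB

/-!
# Kuiper board KW, row SHR
-/

open Set
open Pool.Agent.H61.KU Pool.Agent.H61.KV Pool.Agent.H61.KW

namespace Pool.Agent.H23.KW.SHR

theorem pf_SHR (h : T_PYR) : T_SHR := by
  intro V _ _ _ m K q q' a z hq hq' hnot haq haq' hra hz hzq hza
  have hC := K.cc
  have hqC := K.mem q hq
  have hq'C := K.mem q' hq'
  have haC : a ∈ Cn m := mem_C haq
  have key : ∀ y, y ∈ Fc (Cn m) q → y ∈ Fc (Cn m) q' → y ∈ Fc (Cn m) a := by
    intro y hy hy'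
    have hyC : y ∈ Cn m := mem_C hy
    have hw : a + y ∈ Fc (Cn m) q := add_fc hC hqC haq hy
    have hw' : a + y ∈ Fc (Cn m) q' := add_fc hC hq'C haq' hy'
    have hwC : a + y ∈ Cn m := mem_C hw
    have h3 : rk (Cn m) (a + y) ≤ 3 := by
      by_contra h4
      have h1 : q' ∈ Fc (Cn m) (a + y) := of_rk hC hq'C hw' (by rw [K.rk4 q' hq']; omega)
      exact hnot (tra hC hqC hw h1)
    have h5 : a + y ∈ Fc (Cn m) a := of_rk hC hwC (left_fc hC haC hyC) (by omega)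
    exact (face hC haC haC hyC h5).2
  have hzq' : z ∉ Fc (Cn m) q' := fun h1 => hza (key z hzq h1)
  have hfoot := foot_ex hC (K.ftd q' hq') hz hzq'
  refine h V (Cn m) q a z hC hqC (K.rk4 q hq) haq hra hz hzq hza ?_
  intro u hu hqu
  have huC : u ∈ Cn m := mem_C hu.1
  have hu' : u ∈ Fc (Cn m) q' := tra hC hq'C haq' hu.1
  have h6 : a ∈ Fc (Cn m) (z + u) := by
    rw [add_comm]
    exact tra hC (hC.add u huC z hz.1) hqu haq
  exact hu.2.2 (foot_face hC hq'C hz.1 hu' hfoot haq' h6)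

end Pool.Agent.H23.KW.SHR
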