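import Pool.Agent.H61.KW.TB

/-!
# Kuiper board KW, row VEX
-/

open Set
open Pool.Agent.H61.KU Pool.Agent.H61.KV Pool.Agent.H61.KW

namespace Pool.Agent.H23.KW.VEX

theorem pf_VEX (hCOE : T_COE) : T_VEX := by
  classical
  intro V _ _ _ m K f x hf hfn hx hxf
  have hC := K.cc
  have hex : ∃ n : ℕ, ∃ f', f' ∈ Fc (Cn m) f ∧ x ∈ Fc (Cn m) f' ∧ ¬ Fc (Cn m) f' ⊆ Mh m ∧
      rk (Cn m) f' = n := ⟨_, f, self hC hf, hxf, hfn, rfl⟩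
  obtain ⟨f', hf'f, hxf', hf'n, hrk⟩ := Nat.find_spec hex
  have hmin : ∀ f'', f'' ∈ Fc (Cn m) f → x ∈ Fc (Cn m) f'' → ¬ Fc (Cn m) f'' ⊆ Mh m →
      rk (Cn m) f' ≤ rk (Cn m) f'' := by
    intro f'' h1 h2 h3
    rw [hrk]
    exact Nat.find_min' hex ⟨f'', h1, h2, h3, rfl⟩
  have hf'C : f' ∈ Cn m := mem_C hf'f
  obtain ⟨q, hqf', hq⟩ := K.exi f' hf'C hf'n
  have hqC := K.mem q hq
  by_cases hxq : x ∈ Fc (Cn m) q
  · exact ⟨q, hq, tra hC hf hf'f hqf', hxq⟩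
  · exfalso
    obtain ⟨s, hs, hxs⟩ := hCOE V m K q x hq (K.ex x hx) hx.2.1
    have hsC : s ∈ Cn m := mem_C hs.1
    have h1 : x + s ∈ Fc (Cn m) f' :=
      add_fc hC hf'C hxf' (tra hC hf'C hqf' hs.1)
    have h2 : x + s ∈ Cn m := mem_C h1
    have h3 : rk (Cn m) f' ≤ rk (Cn m) (x + s) :=
      hmin (x + s) (tra hC hf hf'f h1) (left_fc hC hx.1 hsC)
        (fun h => hxs (h (self hC h2)))
    have h4 : f' ∈ Fc (Cn m) (x + s) := of_rk hC hf'C h1 h3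
    have h5 : q ∈ Fc (Cn m) (x + s) := tra hC h2 h4 hqf'
    exact hs.2.2 (foot_face hC hqC hx.1 hs.1 (foot_ex hC (K.ftd q hq) hx hxq) (self hC hqC) h5)

end Pool.Agent.H23.KW.VEX
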